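import Mathlib
import Pool.Prelude.Def_H_02624fa1

/-!
# Reduction of the negation of the jump statement to Lagrangians (helper65)

If for some `r ≥ 3` the number `r⁻ʳ` is a limit from above of Lagrangians of finite `r`-uniform
hypergraphs, then the frozen statement `S09436` holds.
-/

namespace H65.Jump

open Finset Filter Topology

variable {V : Type*} [Fintype V] [DecidableEq V]

/-- Lagrangian polynomial of the set family `E`. -/
noncomputable def lag (E : Finset (Finset V)) (w : V → ℝ) : ℝ := ∑ e ∈ E, ∏ v ∈ e, w v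

omit [Fintype V] in
/-- Number of transversals. -/
lemma card_transversal {α : Type*} [DecidableEq α] (r : ℕ) (φ : α → V) (S : Finset α)
    (e : Finset V) (he : e.card = r) :
    ((S.powersetCard r).filter (fun A => A.image φ = e)).card
      = ∏ v ∈ e, (S.filter (fun i => φ i = v)).card := by
  rw [← Finset.card_pi]
  symm
  refine Finset.card_bij (fun p _ => e.attach.image (fun v => p v.1 v.2)) ?_ ?_ ?_
  · intro p hp
    rw [Finset.mem_pi] at hp
    have hφ : ∀ v : {x // x ∈ e}, φ (p v.1 v.2) = v.1 := fun v =>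
      (Finset.mem_filter.1 (hp v.1 v.2)).2
    rw [Finset.mem_filter, Finset.mem_powersetCard]
    refine ⟨⟨?_, ?_⟩, ?_⟩
    · intro x hx
      obtain ⟨v, -, rfl⟩ := Finset.mem_image.1 hx
      exact (Finset.mem_filter.1 (hp v.1 v.2)).1
    · rw [Finset.card_image_of_injective, Finset.card_attach, he]
      intro v v' h
      have h2 : φ (p v.1 v.2) = φ (p v'.1 v'.2) := congrArg φ h
      rw [hφ, hφ] at h2
      exact Subtype.ext h2
    · rw [Finset.image_image]
      have : (φ ∘ fun v : {x // x ∈ e} => p v.1 v.2) = Subtype.val := by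
        funext v; exact hφ v
      rw [this, Finset.attach_image_val]
  · intro p hp p' hp' h
    rw [Finset.mem_pi] at hp hp'
    funext v hv
    have hm : p v hv ∈ e.attach.image (fun v => p v.1 v.2) :=
      Finset.mem_image.2 ⟨⟨v, hv⟩, Finset.mem_attach _ _, rfl⟩
    rw [h] at hm
    obtain ⟨v', -, h'⟩ := Finset.mem_image.1 hm
    have h1 : φ (p v hv) = v := (Finset.mem_filter.1 (hp v hv)).2
    have h2 : φ (p' v'.1 v'.2) = v'.1 := (Finset.mem_filter.1 (hp' v'.1 v'.2)).2
    have h3 : v'.1 = v := by rw [← h2, h', h1]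
    subst h3
    exact h'.symm
  · intro A hA
    rw [Finset.mem_filter, Finset.mem_powersetCard] at hA
    obtain ⟨⟨hAS, hAr⟩, hAe⟩ := hA
    have hex : ∀ v ∈ e, ∃ i ∈ A, φ i = v := by
      intro v hv
      rw [← hAe] at hv
      exact Finset.mem_image.1 hv
    choose p hpA hpφ using hex
    refine ⟨p, ?_, ?_⟩
    · rw [Finset.mem_pi]
      intro v hv
      exact Finset.mem_filter.2 ⟨hAS (hpA v hv), hpφ v hv⟩
    · apply Finset.eq_of_subset_of_card_le
      · intro x hx
        obtain ⟨v, -, rfl⟩ := Finset.mem_image.1 hx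
        exact hpA v.1 v.2
      · rw [Finset.card_image_of_injective, Finset.card_attach, he, hAr]
        intro v v' h
        have h2 : φ (p v.1 v.2) = φ (p v'.1 v'.2) := congrArg φ h
        rw [hpφ, hpφ] at h2
        exact Subtype.ext h2

/-- blow-up of `E` along `φ` -/
def blow {α : Type*} [Fintype α] [DecidableEq α] (r : ℕ) (E : Finset (Finset V)) (φ : α → V) :
    Finset (Finset α) :=
  ((univ : Finset α).powersetCard r).filter (fun A => A.image φ ∈ E)

omit [Fintype V] in
lemma card_blow_induce {α : Type*} [Fintype α] [DecidableEq α] (r : ℕ) (E : Finset (Finset V))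
    (hE : ∀ e ∈ E, e.card = r) (φ : α → V) (S : Finset α) :
    ((blow r E φ).hypergraphInduce S).card
      = ∑ e ∈ E, ∏ v ∈ e, (S.filter (fun i => φ i = v)).card := by
  have h1 : (blow r E φ).hypergraphInduce S
      = (S.powersetCard r).filter (fun A => A.image φ ∈ E) := by
    ext A
    simp only [blow, Finset.hypergraphInduce, Finset.mem_filter, Finset.mem_powersetCard,
      Finset.subset_univ, true_and]
    tauto
  rw [h1, ← Finset.sum_congr rfl (fun e he => card_transversal r φ S e (hE e he))]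
  rw [← Finset.card_biUnion]
  · congr 1
    ext A
    simp only [Finset.mem_filter, Finset.mem_biUnion]
    constructor
    · rintro ⟨h1, h2⟩
      exact ⟨_, h2, h1, rfl⟩
    · rintro ⟨e, h1, h2, h3⟩
      exact ⟨h2, h3 ▸ h1⟩
  · intro e _ e' _ hne
    rw [Function.onFun, Finset.disjoint_left]
    intro A hA hA'
    rw [Finset.mem_filter] at hA hA'
    exact hne (hA.2.symm.trans hA'.2)

lemma exists_map (n : ℕ) (N : V → ℕ) (hN : ∑ v, N v ≤ n) [Nonempty V] :
    ∃ φ : Fin n → V, ∀ v, N v ≤ (univ.filter (fun i => φ i = v)).card := by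
  classical
  have hc : Fintype.card (Σ v : V, Fin (N v)) ≤ Fintype.card (Fin n) := by
    simpa [Fintype.card_sigma] using hN
  obtain ⟨f⟩ := Function.Embedding.nonempty_of_card_le hc
  let φ : Fin n → V := fun i => if h : ∃ x, f x = i then (h.choose).1 else Classical.arbitrary V
  have hφ : ∀ x, φ (f x) = x.1 := by
    intro x
    have h : ∃ y, f y = f x := ⟨x, rfl⟩
    have h2 : φ (f x) = (h.choose).1 := by
      simp only [φ]
      rw [dif_pos h]
    rw [h2, f.injective h.choose_spec]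
  refine ⟨φ, fun v => ?_⟩
  have : (Finset.univ.image (fun i : Fin (N v) => f ⟨v, i⟩)).card = N v := by
    rw [Finset.card_image_of_injective, Finset.card_univ, Fintype.card_fin]
    intro i j h
    have := f.injective h
    simpa using this
  rw [← this]
  apply Finset.card_le_card
  intro x hx
  obtain ⟨i, -, rfl⟩ := Finset.mem_image.1 hx
  rw [Finset.mem_filter]
  exact ⟨Finset.mem_univ _, hφ _⟩

/-- Homogeneity and the upper bound for induced subhypergraphs. -/
lemma induce_lt {α : Type*} [Fintype α] [DecidableEq α] (r : ℕ) (E : Finset (Finset V))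
    (hE : ∀ e ∈ E, e.card = r) (c : ℝ)
    (hc : ∀ w : V → ℝ, (∀ v, 0 ≤ w v) → ∑ v, w v = 1 → lag E w < c)
    (φ : α → V) (S : Finset α) (hS : 0 < S.card) :
    (((blow r E φ).hypergraphInduce S).card : ℝ) < c * (S.card : ℝ) ^ r := by
  rw [card_blow_induce r E hE φ S]
  have hS' : (0 : ℝ) < S.card := by exact_mod_cast hS
  set w : V → ℝ := fun v => ((S.filter (fun i => φ i = v)).card : ℝ) / S.card with hw
  have hw0 : ∀ v, 0 ≤ w v := fun v => by positivity
  have hw1 : ∑ v, w v = 1 := by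
    rw [hw, ← Finset.sum_div, ← Nat.cast_sum,
      ← Finset.card_eq_sum_card_fiberwise (fun x _ => Finset.mem_univ (φ x)), div_self hS'.ne']
  have h := hc w hw0 hw1
  have h2 : ((∑ e ∈ E, ∏ v ∈ e, (S.filter (fun i => φ i = v)).card : ℕ) : ℝ)
      = lag E w * (S.card : ℝ) ^ r := by
    rw [lag, Finset.sum_mul, Nat.cast_sum]
    refine Finset.sum_congr rfl (fun e he => ?_)
    rw [hw, Finset.prod_div_distrib, Finset.prod_const, hE e he, Nat.cast_prod,
      div_mul_cancel₀ _ (pow_pos hS' r).ne']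
  rw [h2]
  exact mul_lt_mul_of_pos_right h (pow_pos hS' r)

/-- **Reduction.** -/
theorem not_jump (r : ℕ) (hr : 3 ≤ r)
    (h : ∀ c : ℝ, (r : ℝ)⁻¹ ^ r < c → ∃ (V : Type) (_ : Fintype V) (_ : DecidableEq V)
      (E : Finset (Finset V)), (∀ e ∈ E, e.card = r) ∧
      (∀ w : V → ℝ, (∀ v, 0 ≤ w v) → ∑ v, w v = 1 → lag E w < c) ∧
      ∃ w : V → ℝ, (∀ v, 0 ≤ w v) ∧ ∑ v, w v = 1 ∧ (r : ℝ)⁻¹ ^ r < lag E w) :
    ¬ (∀ r : ℕ, 3 ≤ r → ∃ c : ℝ, (r : ℝ)⁻¹ ^ r < c ∧ ∀ ε : ℝ, 0 < ε → ∃ m : ℕ → ℕ,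
      Tendsto m atTop atTop ∧ ∀ᶠ n : ℕ in atTop, ∀ H : Finset (Finset (Fin n)), H.IsUniform r →
      (1 + ε) * ((n : ℝ) / r) ^ r ≤ H.card → ∃ S : Finset (Fin n), S.card = m n ∧
      c * (S.card : ℝ) ^ r ≤ (H.hypergraphInduce S).card) := by
  intro H
  obtain ⟨c, hc, H⟩ := H r hr
  obtain ⟨V, _, _, E, hE, hup, w, hw0, hw1, hlow⟩ := h c hc
  have hr0 : (0 : ℝ) < r := by exact_mod_cast (by omega : 0 < r)
  have hrr : (0 : ℝ) < (r : ℝ)⁻¹ ^ r := by positivity
  have hV : Nonempty V := by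
    by_contra hne
    rw [not_nonempty_iff] at hne
    simp at hw1
  set ε : ℝ := (lag E w / (r : ℝ)⁻¹ ^ r - 1) / 2 with hε
  have hε0 : 0 < ε := by
    have : 1 < lag E w / (r : ℝ)⁻¹ ^ r := by rw [lt_div_iff₀ hrr]; linarith
    linarith
  have hε1 : (1 + ε) * (r : ℝ)⁻¹ ^ r < lag E w := by
    have : 1 < lag E w / (r : ℝ)⁻¹ ^ r := by rw [lt_div_iff₀ hrr]; linarith
    have h2 : 1 + ε < lag E w / (r : ℝ)⁻¹ ^ r := by rw [hε]; linarith
    rwa [lt_div_iff₀ hrr] at h2
  obtain ⟨m, hm, H⟩ := H ε hε0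
  -- asymptotics
  have hlim : Tendsto (fun n : ℕ => ∑ e ∈ E, ∏ v ∈ e, ((⌊w v * n⌋₊ : ℝ) / n)) atTop
      (𝓝 (lag E w)) := by
    apply tendsto_finsetSum
    intro e _
    apply tendsto_finsetProd
    intro v _
    exact (tendsto_nat_floor_mul_div_atTop (hw0 v)).comp tendsto_natCast_atTop_atTop
  have hev := hlim.eventually (lt_mem_nhds hε1)
  obtain ⟨n, hn, hevn, hmn, hn0⟩ := (H.and (hev.and ((hm.eventually_ge_atTop 1).and
    (eventually_ge_atTop 1)))).exists
  have hn' : (0 : ℝ) < n := by exact_mod_cast hn0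
  obtain ⟨φ, hφ⟩ := exists_map (V := V) n (fun v => ⌊w v * n⌋₊) (by
    have : ((∑ v, ⌊w v * n⌋₊ : ℕ) : ℝ) ≤ n := by
      rw [Nat.cast_sum]
      calc ∑ v, ((⌊w v * n⌋₊ : ℕ) : ℝ) ≤ ∑ v, w v * n :=
            Finset.sum_le_sum (fun v _ => Nat.floor_le (by have := hw0 v; positivity))
        _ = n := by rw [← Finset.sum_mul, hw1, one_mul]
    exact_mod_cast this)
  obtain ⟨S, hS, hcS⟩ := hn (blow r E φ) (by
    intro A hA
    rw [blow, Finset.mem_filter, Finset.mem_powersetCard] at hA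
    exact hA.1.2) (by
    have hcard : ((blow r E φ).card : ℝ)
        = ∑ e ∈ E, ∏ v ∈ e, ((univ.filter (fun i => φ i = v)).card : ℝ) := by
      have h1 := card_blow_induce r E hE φ (univ : Finset (Fin n))
      have h2 : (blow r E φ).hypergraphInduce univ = blow r E φ := by
        simp [Finset.hypergraphInduce]
      rw [h2] at h1
      rw [h1]
      push_cast
      rfl
    rw [hcard]
    calc (1 + ε) * ((n : ℝ) / r) ^ r = ((1 + ε) * (r : ℝ)⁻¹ ^ r) * (n : ℝ) ^ r := by
          rw [div_eq_mul_inv, mul_pow]; ring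
      _ ≤ (∑ e ∈ E, ∏ v ∈ e, ((⌊w v * n⌋₊ : ℝ) / n)) * (n : ℝ) ^ r := by
          exact mul_le_mul_of_nonneg_right hevn.le (by positivity)
      _ = ∑ e ∈ E, ∏ v ∈ e, (⌊w v * n⌋₊ : ℝ) := by
          rw [Finset.sum_mul]
          refine Finset.sum_congr rfl (fun e he => ?_)
          rw [Finset.prod_div_distrib, Finset.prod_const, hE e he,
            div_mul_cancel₀ _ (pow_pos hn' r).ne']
      _ ≤ _ := by
          refine Finset.sum_le_sum (fun e _ => ?_)
          exact Finset.prod_le_prod (fun v _ => Nat.cast_nonneg _)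
            (fun v _ => by exact_mod_cast hφ v))
  have hSpos : 0 < S.card := by rw [hS]; omega
  exact absurd hcS (not_le.2 (induce_lt r E hE c hup φ S hSpos))

end H65.Jump
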